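import Pool.Agent.H933.LL.Stm

/-!
# An annihilating density in a weighted Bergman space (P_berg from P_domar)
-/

set_option autoImplicit false

open MeasureTheory Metric Filter Topology
open scoped Real InnerProductSpace ComplexConjugate

noncomputable section

namespace Pool.Agent.H685.LL

open Pool.Agent.H933.LL

/-! ### real inequalities -/

lemma posLog_le_self {x : ℝ} (hx : 0 ≤ x) : Real.posLog x ≤ x := by
  rw [Real.posLog_apply]
  exact max_le hx (Real.log_le_self hx)

lemma rpow3 {a b c q : ℝ} (ha : 0 ≤ a) (hb : 0 ≤ b) (hc : 0 ≤ c) (hq : 0 ≤ q) :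
    (a + b + c) ^ q ≤ 3 ^ q * (a ^ q + b ^ q + c ^ q) := by
  have ha' := Real.rpow_nonneg ha q
  have hb' := Real.rpow_nonneg hb q
  have hc' := Real.rpow_nonneg hc q
  have h3 : (0 : ℝ) ≤ 3 ^ q := by positivity
  have key : ∀ m : ℝ, 0 ≤ m → a + b + c ≤ 3 * m → m ^ q ≤ a ^ q + b ^ q + c ^ q →
      (a + b + c) ^ q ≤ 3 ^ q * (a ^ q + b ^ q + c ^ q) := by
    intro m hm h1 h2
    calc (a + b + c) ^ q ≤ (3 * m) ^ q := Real.rpow_le_rpow (by positivity) h1 hq
      _ = 3 ^ q * m ^ q := Real.mul_rpow (by norm_num) hm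
      _ ≤ _ := mul_le_mul_of_nonneg_left h2 h3
  rcases le_total a b with hab | hab
  · rcases le_total b c with hbc | hbc
    · exact key c hc (by linarith) (by linarith)
    · exact key b hb (by linarith) (by linarith)
  · rcases le_total a c with hac | hac
    · exact key c hc (by linarith) (by linarith)
    · exact key a ha (by linarith) (by linarith)

lemma posLog_rpow {y q : ℝ} (hy : 0 ≤ y) (hq : 0 < q) :
    (Real.posLog y) ^ q ≤ (q / 2) ^ q * y ^ 2 := by
  rcases le_total y 1 with h | h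
  · have : Real.posLog y = 0 := by
      rw [Real.posLog_eq_zero_iff, abs_of_nonneg hy]
      exact h
    rw [this, Real.zero_rpow hq.ne']
    positivity
  · have h1 : Real.posLog y = Real.log y := Real.posLog_eq_log (by rwa [abs_of_nonneg hy])
    rw [h1]
    have h2 : Real.log y ≤ y ^ (2 / q) / (2 / q) := Real.log_le_rpow_div hy (by positivity)
    have h3 : y ^ (2 / q) / (2 / q) = q / 2 * y ^ (2 / q) := by
      field_simp
    rw [h3] at h2
    calc (Real.log y) ^ q ≤ (q / 2 * y ^ (2 / q)) ^ q :=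
          Real.rpow_le_rpow (Real.log_nonneg h) h2 hq.le
      _ = (q / 2) ^ q * y ^ 2 := by
        rw [Real.mul_rpow (by positivity) (by positivity), ← Real.rpow_mul hy]
        congr 1
        rw [div_mul_cancel₀ _ hq.ne', ← Real.rpow_natCast]
        norm_num

lemma point {M y q : ℝ} (hy : 0 ≤ y) (hq : 0 < q) :
    (Real.posLog (Real.posLog (M * y))) ^ q ≤
      3 ^ q * ((Real.log 2) ^ q + (Real.posLog (Real.posLog M)) ^ q + (q / 2) ^ q * y ^ 2) := by
  have h1 : Real.posLog (M * y) ≤ Real.posLog M + Real.posLog y := Real.posLog_mul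
  have h2 : Real.posLog (Real.posLog (M * y)) ≤ Real.log 2 + Real.posLog (Real.posLog M) +
      Real.posLog y := by
    calc Real.posLog (Real.posLog (M * y)) ≤ Real.posLog (Real.posLog M + Real.posLog y) :=
          Real.posLog_le_posLog Real.posLog_nonneg h1
      _ ≤ Real.log 2 + Real.posLog (Real.posLog M) + Real.posLog (Real.posLog y) :=
          Real.posLog_add
      _ ≤ _ := by
        have := posLog_le_self (x := Real.posLog y) Real.posLog_nonneg
        linarith
  calc (Real.posLog (Real.posLog (M * y))) ^ q ≤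
        (Real.log 2 + Real.posLog (Real.posLog M) + Real.posLog y) ^ q :=
        Real.rpow_le_rpow Real.posLog_nonneg h2 hq.le
    _ ≤ 3 ^ q * ((Real.log 2) ^ q + (Real.posLog (Real.posLog M)) ^ q + (Real.posLog y) ^ q) :=
        rpow3 (Real.log_nonneg (by norm_num)) Real.posLog_nonneg Real.posLog_nonneg hq.le
    _ ≤ _ := by
        refine mul_le_mul_of_nonneg_left ?_ (by positivity)
        have := posLog_rpow hy hq
        linarith

/-! ### the subspace -/

/-- the subspace of the functions `g / M`, `g` holomorphic on the disc -/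
def Sub (M : ℂ → ℝ) (l : ℂ) (r : ℝ) : Submodule ℂ (Lp ℂ 2 (volume.restrict (ball l r))) where
  carrier := {f | ∃ g : ℂ → ℂ, DifferentiableOn ℂ g (ball l r) ∧
    f =ᵐ[volume.restrict (ball l r)] fun z => g z * (((M z)⁻¹ : ℝ) : ℂ)}
  add_mem' := by
    rintro f1 f2 ⟨g1, hg1, h1⟩ ⟨g2, hg2, h2⟩
    refine ⟨fun z => g1 z + g2 z, hg1.add hg2, ?_⟩
    filter_upwards [Lp.coeFn_add f1 f2, h1, h2] with z e0 e1 e2
    rw [e0, Pi.add_apply, e1, e2]
    ring
  zero_mem' := by
    refine ⟨fun _ => 0, differentiableOn_const 0, ?_⟩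
    filter_upwards [Lp.coeFn_zero ℂ 2 (volume.restrict (ball l r))] with z e0
    rw [e0, Pi.zero_apply, zero_mul]
  smul_mem' := by
    rintro c f ⟨g, hg, h⟩
    refine ⟨fun z => c * g z, hg.const_mul c, ?_⟩
    filter_upwards [Lp.coeFn_smul c f, h] with z e0 e1
    rw [e0, Pi.smul_apply, e1, smul_eq_mul]
    ring

instance (l : ℂ) (r : ℝ) : IsFiniteMeasure (volume.restrict (ball l r)) :=
  ⟨by rw [Measure.restrict_apply_univ]; exact measure_ball_lt_top⟩

lemma nsq {ν : Measure ℂ} (f : Lp ℂ 2 ν) : ‖f‖ ^ 2 = ∫ z, ‖f z‖ ^ 2 ∂ν := by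
  have h1 : ⟪f, f⟫_ℂ = ((‖f‖ : ℝ) : ℂ) ^ 2 := inner_self_eq_norm_sq_to_K f
  rw [L2.inner_def] at h1
  have h2 : ∀ z, ⟪f z, f z⟫_ℂ = ((‖f z‖ ^ 2 : ℝ) : ℂ) := fun z => by
    rw [inner_self_eq_norm_sq_to_K]
    norm_cast
  simp only [h2] at h1
  rw [integral_complex_ofReal] at h1
  exact_mod_cast h1.symm

/-- the members of the subspace are bounded on compact sets by their norms -/
lemma bound (hD : P_domar) {M : ℂ → ℝ} {l : ℂ} {r q m0 : ℝ} (hr : 0 < r) (hq : 1 < q)
    (hm0 : 0 < m0) (hM : ∀ᵐ z ∂(volume.restrict (ball l r)), m0 ≤ M z ∧ 1 ≤ M z * ‖z - l‖)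
    (hint : IntegrableOn (fun z => (Real.posLog (Real.posLog (M z))) ^ q) (ball l r)) :
    ∃ C : ℝ, 0 < C ∧ ∀ (ε : ℝ) (f : Lp ℂ 2 (volume.restrict (ball l r))) (g : ℂ → ℂ), 0 < ε →
      DifferentiableOn ℂ g (ball l r) →
      (f =ᵐ[volume.restrict (ball l r)] fun z => g z * (((M z)⁻¹ : ℝ) : ℂ)) → ‖f‖ ≤ ε →
      ∀ z₀ ∈ closedBall l (r / 2), ‖g z₀‖ ≤ C * ε := by
  have hq0 : 0 < q := by linarith
  obtain ⟨I, hI⟩ : ∃ I, I = 3 ^ q * ((Real.log 2) ^ q * (volume.restrict (ball l r)).real Set.univ +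
      (∫ z in ball l r, (Real.posLog (Real.posLog (M z))) ^ q) + (q / 2) ^ q) := ⟨_, rfl⟩
  have hlog : (0 : ℝ) ≤ (Real.log 2) ^ q := Real.rpow_nonneg (Real.log_nonneg (by norm_num)) q
  have hI0 : 0 ≤ I := by
    rw [hI]
    have h1 : 0 ≤ ∫ z in ball l r, (Real.posLog (Real.posLog (M z))) ^ q :=
      integral_nonneg fun z => Real.rpow_nonneg Real.posLog_nonneg q
    have h2 : 0 ≤ (volume.restrict (ball l r)).real Set.univ := measureReal_nonneg
    positivity
  obtain ⟨C, hC, hC2⟩ := hD q I (r / 4) hq hI0 (by positivity)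
  refine ⟨C, hC, ?_⟩
  intro ε f g hε hg hfg hf z₀ hz₀
  obtain ⟨G, hG⟩ : ∃ G : ℂ → ℂ, G = fun z => ((ε⁻¹ : ℝ) : ℂ) * g z := ⟨_, rfl⟩
  have hsub : closedBall z₀ (r / 4) ⊆ ball l r := by
    intro x hx
    rw [mem_closedBall] at hx hz₀
    rw [mem_ball]
    calc dist x l ≤ dist x z₀ + dist z₀ l := dist_triangle _ _ _
      _ < r := by linarith
  have hGd : DifferentiableOn ℂ G (ball l r) := by
    rw [hG]
    exact hg.const_mul _
  have hfi : Integrable (fun z => ‖f z‖ ^ 2) (volume.restrict (ball l r)) :=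
    (Lp.memLp f).integrable_norm_pow (by norm_num)
  have hH : Integrable (fun z => 3 ^ q * ((Real.log 2) ^ q + (Real.posLog (Real.posLog (M z))) ^ q +
      (q / 2) ^ q * (ε⁻¹ * ‖f z‖) ^ 2)) (volume.restrict (ball l r)) := by
    have e : (fun z => 3 ^ q * ((Real.log 2) ^ q + (Real.posLog (Real.posLog (M z))) ^ q +
      (q / 2) ^ q * (ε⁻¹ * ‖f z‖) ^ 2)) = fun z => 3 ^ q * ((Real.log 2) ^ q +
      (Real.posLog (Real.posLog (M z))) ^ q + (q / 2) ^ q * ε⁻¹ ^ 2 * ‖f z‖ ^ 2) := by
      funext z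
      ring
    rw [e]
    exact (((integrable_const _).add hint).add (hfi.const_mul _)).const_mul _
  have hpt : ∀ᵐ z ∂(volume.restrict (ball l r)), (Real.posLog (Real.posLog ‖G z‖)) ^ q ≤
      3 ^ q * ((Real.log 2) ^ q + (Real.posLog (Real.posLog (M z))) ^ q +
      (q / 2) ^ q * (ε⁻¹ * ‖f z‖) ^ 2) := by
    filter_upwards [hM, hfg] with z h1 h2
    have hMz : 0 < M z := lt_of_lt_of_le hm0 h1.1
    have e : ‖G z‖ = M z * (ε⁻¹ * ‖f z‖) := by
      rw [h2, hG, norm_mul, norm_mul, Complex.norm_real, Complex.norm_real,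
        Real.norm_of_nonneg (by positivity), Real.norm_of_nonneg (by positivity)]
      field_simp
    rw [e]
    exact point (by positivity) hq0
  have hle : (∫ z in ball z₀ (r / 4), (Real.posLog (Real.posLog ‖G z‖)) ^ q) ≤ I := by
    have hb : ball z₀ (r / 4) ⊆ ball l r := ball_subset_closedBall.trans hsub
    calc (∫ z in ball z₀ (r / 4), (Real.posLog (Real.posLog ‖G z‖)) ^ q)
        ≤ ∫ z in ball z₀ (r / 4), 3 ^ q * ((Real.log 2) ^ q +
          (Real.posLog (Real.posLog (M z))) ^ q + (q / 2) ^ q * (ε⁻¹ * ‖f z‖) ^ 2) := by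
          refine integral_mono_of_nonneg (Eventually.of_forall fun z =>
            Real.rpow_nonneg Real.posLog_nonneg q) (IntegrableOn.mono_set hH hb) ?_
          exact ae_restrict_of_ae_restrict_of_subset hb hpt
      _ ≤ ∫ z in ball l r, 3 ^ q * ((Real.log 2) ^ q +
          (Real.posLog (Real.posLog (M z))) ^ q + (q / 2) ^ q * (ε⁻¹ * ‖f z‖) ^ 2) := by
          refine setIntegral_mono_set hH (Eventually.of_forall fun z => ?_) hb.eventuallyLE
          have := Real.rpow_nonneg (Real.posLog_nonneg (x := Real.posLog (M z))) q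
          change 0 ≤ 3 ^ q * ((Real.log 2) ^ q +
            (Real.posLog (Real.posLog (M z))) ^ q + (q / 2) ^ q * (ε⁻¹ * ‖f z‖) ^ 2)
          positivity
      _ = 3 ^ q * ((Real.log 2) ^ q * (volume.restrict (ball l r)).real Set.univ +
          (∫ z in ball l r, (Real.posLog (Real.posLog (M z))) ^ q) +
            (q / 2) ^ q * ε⁻¹ ^ 2 * ‖f‖ ^ 2) := by
          rw [integral_const_mul, nsq]
          congr 1
          have e : (fun z => (Real.log 2) ^ q + (Real.posLog (Real.posLog (M z))) ^ q +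
            (q / 2) ^ q * (ε⁻¹ * ‖f z‖) ^ 2) = fun z => ((Real.log 2) ^ q +
            (Real.posLog (Real.posLog (M z))) ^ q) + (q / 2) ^ q * ε⁻¹ ^ 2 * ‖f z‖ ^ 2 := by
            funext z
            ring
          have i1 : Integrable (fun z => (Real.log 2) ^ q +
            (Real.posLog (Real.posLog (M z))) ^ q) (volume.restrict (ball l r)) :=
            (integrable_const _).add hint
          have i2 : Integrable (fun z => (q / 2) ^ q * ε⁻¹ ^ 2 * ‖f z‖ ^ 2)
            (volume.restrict (ball l r)) := hfi.const_mul _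
          have i3 := integral_add i1 i2
          have i4 : ∫ z in ball l r, ((Real.log 2) ^ q + (Real.posLog (Real.posLog (M z))) ^ q) =
              (∫ z in ball l r, (Real.log 2) ^ q) +
                ∫ z in ball l r, (Real.posLog (Real.posLog (M z))) ^ q :=
            integral_add (integrable_const _) hint
          rw [e, i3, i4, integral_const, integral_const_mul, smul_eq_mul]
          ring
      _ ≤ I := by
          rw [hI]
          refine mul_le_mul_of_nonneg_left ?_ (by positivity)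
          have h1 : ε⁻¹ ^ 2 * ‖f‖ ^ 2 ≤ 1 := by
            rw [← mul_pow]
            refine pow_le_one₀ (by positivity) ?_
            rw [inv_mul_le_iff₀ hε, mul_one]
            exact hf
          have h2 : (0 : ℝ) ≤ (q / 2) ^ q := by positivity
          have h3 := mul_le_mul_of_nonneg_left h1 h2
          linarith
  have h4 := hC2 G (ball l r) z₀ isOpen_ball hsub hGd hle
  rw [hG, norm_mul, Complex.norm_real, Real.norm_of_nonneg (by positivity)] at h4
  rw [inv_mul_le_iff₀ hε] at h4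
  linarith

/-- members of `Lp` from bounded measurable functions -/
lemma memLp_bdd {ν : Measure ℂ} [IsFiniteMeasure ν] {F : ℂ → ℂ} (hF : AEStronglyMeasurable F ν)
    {C : ℝ} (hC : ∀ᵐ z ∂ν, ‖F z‖ ≤ C) : MemLp F 2 ν :=
  MemLp.of_bound hF C hC

/-- **P_berg** -/
theorem p_berg (h : P_domar) : P_berg := by
  intro M l r q m0 hr hq hm0 hMm hM hint
  obtain ⟨C, hC, hbd⟩ := bound h hr hq hm0 hM hint
  have hMi : AEStronglyMeasurable (fun z => (((M z)⁻¹ : ℝ) : ℂ)) (volume.restrict (ball l r)) :=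
    (Complex.measurable_ofReal.comp_aemeasurable hMm.inv).aestronglyMeasurable
  -- the function `k`
  have hkm : AEStronglyMeasurable (fun z => (z - l)⁻¹ * (((M z)⁻¹ : ℝ) : ℂ))
      (volume.restrict (ball l r)) := by
    refine AEStronglyMeasurable.mul ?_ hMi
    exact (measurable_id.sub_const l).inv.aestronglyMeasurable
  have hk : MemLp (fun z => (z - l)⁻¹ * (((M z)⁻¹ : ℝ) : ℂ)) 2 (volume.restrict (ball l r)) := by
    refine memLp_bdd (C := 1) hkm ?_
    filter_upwards [hM] with z hz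
    have hMz : 0 < M z := lt_of_lt_of_le hm0 hz.1
    have hzl : 0 < ‖z - l‖ := by
      by_contra hcon
      have : ‖z - l‖ = 0 := le_antisymm (not_lt.1 hcon) (norm_nonneg _)
      rw [this, mul_zero] at hz
      linarith [hz.2]
    rw [norm_mul, norm_inv, Complex.norm_real, Real.norm_of_nonneg (by positivity), ← mul_inv]
    refine inv_le_one_of_one_le₀ ?_
    rw [mul_comm]
    exact hz.2
  obtain ⟨k, hkdef⟩ : ∃ k : Lp ℂ 2 (volume.restrict (ball l r)), k = hk.toLp := ⟨_, rfl⟩
  have hkz : k =ᵐ[volume.restrict (ball l r)] fun z => (z - l)⁻¹ * (((M z)⁻¹ : ℝ) : ℂ) := by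
    rw [hkdef]
    exact hk.coeFn_toLp
  -- it is not in the closure
  have hnot : k ∉ (Sub M l r).topologicalClosure := by
    intro hmem
    have hmem' : k ∈ closure (Sub M l r : Set (Lp ℂ 2 (volume.restrict (ball l r)))) := hmem
    obtain ⟨f, hfA, hfk⟩ := mem_closure_iff_seq_limit.1 hmem'
    choose g hg hfg using hfA
    obtain ⟨ns, hns, hae⟩ := (tendstoInMeasure_of_tendsto_Lp hfk).exists_seq_tendsto_ae
    obtain ⟨ε, hε⟩ : ∃ ε, ε = ‖k‖ + 1 := ⟨_, rfl⟩
    have hε0 : 0 < ε := by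
      rw [hε]; positivity
    have hev : ∀ᶠ n in atTop, ‖f n‖ ≤ ε := by
      have h1 : ∀ᶠ n in atTop, ‖f n‖ < ‖k‖ + 1 := hfk.norm.eventually (gt_mem_nhds (lt_add_one _))
      filter_upwards [h1] with n hn
      rw [hε]
      exact hn.le
    have hev2 : ∀ᶠ j in atTop, ‖f (ns j)‖ ≤ ε := hns.tendsto_atTop.eventually hev
    have hall : ∀ᵐ z ∂(volume.restrict (ball l r)), ∀ n, f n z = g n z * (((M z)⁻¹ : ℝ) : ℂ) :=
      ae_all_iff.2 fun n => hfg n
    -- the bound for `1 / (z - l)`
    have hfin : ∀ᵐ z ∂(volume.restrict (ball l r)), z ∈ closedBall l (r / 2) →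
        z ≠ l ∧ ‖(z - l)⁻¹‖ ≤ C * ε := by
      filter_upwards [hae, hall, hM, hkz] with z h1 h2 h3 h4 h5
      have hMz : 0 < M z := lt_of_lt_of_le hm0 h3.1
      refine ⟨?_, ?_⟩
      · rintro rfl
        rw [sub_self, norm_zero, mul_zero] at h3
        linarith [h3.2]
      · rw [h4] at h1
        have h6 : Tendsto (fun j => ‖g (ns j) z‖ * (M z)⁻¹) atTop (𝓝 (‖(z - l)⁻¹‖ * (M z)⁻¹)) := by
          have h7 := h1.norm
          rw [norm_mul, Complex.norm_real, Real.norm_of_nonneg (inv_nonneg.2 hMz.le)] at h7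
          refine h7.congr fun j => ?_
          rw [h2, norm_mul, Complex.norm_real, Real.norm_of_nonneg (inv_nonneg.2 hMz.le)]
        have h7 : ‖(z - l)⁻¹‖ * (M z)⁻¹ ≤ C * ε * (M z)⁻¹ := by
          refine le_of_tendsto h6 ?_
          filter_upwards [hev2] with j hj
          exact mul_le_mul_of_nonneg_right (hbd ε (f (ns j)) (g (ns j)) hε0 (hg _) (hfg _) hj z h5)
            (inv_nonneg.2 hMz.le)
        exact le_of_mul_le_mul_right h7 (inv_pos.2 hMz)
    -- a small ball
    obtain ⟨δ, hδ⟩ : ∃ δ, δ = min (r / 2) (C * ε + 1)⁻¹ := ⟨_, rfl⟩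
    have hCε : 0 < C * ε + 1 := by positivity
    have hδ0 : 0 < δ := by
      rw [hδ]
      exact lt_min (by positivity) (inv_pos.2 hCε)
    have hsub : ball l δ ⊆ ball l r := ball_subset_ball (by
      rw [hδ]
      exact (min_le_left _ _).trans (by linarith))
    have hfalse : ∀ᵐ z ∂(volume.restrict (ball l δ)), False := by
      filter_upwards [ae_restrict_of_ae_restrict_of_subset hsub hfin,
        ae_restrict_mem measurableSet_ball] with z h1 h2
      rw [mem_ball, dist_eq_norm] at h2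
      have h3 : z ∈ closedBall l (r / 2) := by
        rw [mem_closedBall, dist_eq_norm]
        exact h2.le.trans (by rw [hδ]; exact min_le_left _ _)
      obtain ⟨h4, h5⟩ := h1 h3
      have h6 : 0 < ‖z - l‖ := norm_pos_iff.2 (sub_ne_zero.2 h4)
      have h7 : ‖z - l‖ < (C * ε + 1)⁻¹ := lt_of_lt_of_le h2 (by rw [hδ]; exact min_le_right _ _)
      rw [norm_inv] at h5
      have h8 : C * ε + 1 < ‖z - l‖⁻¹ := (lt_inv_comm₀ hCε h6).2 h7
      linarith
    rw [Filter.eventually_false_iff_eq_bot, ae_eq_bot, Measure.restrict_eq_zero] at hfalse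
    exact (measure_ball_pos volume l hδ0).ne' hfalse
  -- the annihilating function
  rw [← Submodule.orthogonal_orthogonal_eq_closure, Submodule.mem_orthogonal] at hnot
  push Not at hnot
  obtain ⟨f₀, hf₀, hne⟩ := hnot
  rw [Submodule.mem_orthogonal'] at hf₀
  -- the inner products
  have hip : ∀ (u : Lp ℂ 2 (volume.restrict (ball l r))) (g : ℂ → ℂ),
      (u =ᵐ[volume.restrict (ball l r)] fun z => g z * (((M z)⁻¹ : ℝ) : ℂ)) →
      ∫ z in ball l r, (conj (f₀ z) * (((M z)⁻¹ : ℝ) : ℂ)) * g z = ⟪f₀, u⟫_ℂ := by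
    intro u g hu
    rw [L2.inner_def]
    refine integral_congr_ae ?_
    filter_upwards [hu] with z hz
    rw [hz, RCLike.inner_apply]
    ring
  have hf₀i : Integrable (fun z => ‖f₀ z‖) (volume.restrict (ball l r)) :=
    ((Lp.memLp f₀).integrable (by norm_num)).norm
  have hhm : AEStronglyMeasurable (fun z => conj (f₀ z) * (((M z)⁻¹ : ℝ) : ℂ))
      (volume.restrict (ball l r)) := by
    refine AEStronglyMeasurable.mul ?_ hMi
    exact Complex.continuous_conj.comp_aestronglyMeasurable (Lp.aestronglyMeasurable f₀)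
  refine ⟨fun z => conj (f₀ z) * (((M z)⁻¹ : ℝ) : ℂ), hhm, ?_, ?_, ?_, ?_⟩
  · refine Integrable.mono' (hf₀i.const_mul m0⁻¹) hhm ?_
    filter_upwards [hM] with z hz
    have hMz : 0 < M z := lt_of_lt_of_le hm0 hz.1
    rw [norm_mul, Complex.norm_real, Real.norm_of_nonneg (inv_nonneg.2 hMz.le), RCLike.norm_conj,
      mul_comm]
    exact mul_le_mul_of_nonneg_right (inv_anti₀ hm0 hz.1) (norm_nonneg _)
  · refine Integrable.congr hf₀i ?_
    filter_upwards [hM] with z hz
    have hMz : 0 < M z := lt_of_lt_of_le hm0 hz.1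
    rw [norm_mul, Complex.norm_real, Real.norm_of_nonneg (inv_nonneg.2 hMz.le), RCLike.norm_conj]
    field_simp
  · intro g hg ⟨B, hB⟩
    have hgm : AEStronglyMeasurable (fun z => g z * (((M z)⁻¹ : ℝ) : ℂ))
        (volume.restrict (ball l r)) :=
      (hg.continuousOn.aestronglyMeasurable measurableSet_ball).mul hMi
    have hgL : MemLp (fun z => g z * (((M z)⁻¹ : ℝ) : ℂ)) 2 (volume.restrict (ball l r)) := by
      refine memLp_bdd (C := |B| * m0⁻¹) hgm ?_
      filter_upwards [hM, ae_restrict_mem measurableSet_ball] with z hz hzb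
      have hMz : 0 < M z := lt_of_lt_of_le hm0 hz.1
      rw [norm_mul, Complex.norm_real, Real.norm_of_nonneg (inv_nonneg.2 hMz.le)]
      exact mul_le_mul ((hB z hzb).trans (le_abs_self B)) (inv_anti₀ hm0 hz.1)
        (inv_nonneg.2 hMz.le) (abs_nonneg _)
    rw [hip hgL.toLp g hgL.coeFn_toLp]
    exact hf₀ _ ⟨g, hg, hgL.coeFn_toLp⟩
  · rw [hip k (fun z => (z - l)⁻¹) hkz]
    exact hne

end Pool.Agent.H685.LL
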